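import Pool.Agent.Lib_helper30.Crit

set_option autoImplicit false

namespace Pool.Agent.Results.MP_3bcd2d_al.EulerGenusTwo

/-- Two distinct variables `x`, `y` of the quadratic word `w` force the surface of `w` to have
Euler genus at least two: either they are linked (their occurrences alternate) and not both of
them occur twice with the same sign, or they are unlinked (side by side, or nested) and both
of them occur twice with the same sign. -/
inductive GoodPair (w : List (Bool × (Bool ⊕ ℕ))) (x y : ℕ) : Prop
  | linked (A B C D E : List (Bool × (Bool ⊕ ℕ))) (s1 s2 s3 s4 : Bool) (hs : s1 ≠ s3 ∨ s2 ≠ s4)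
      (hw : w = A ++ (s1, Sum.inr x) :: (B ++ (s2, Sum.inr y) :: (C ++ (s3, Sum.inr x) ::
        (D ++ (s4, Sum.inr y) :: E)))) : GoodPair w x y
  | side (A B C D E : List (Bool × (Bool ⊕ ℕ))) (s t : Bool)
      (hw : w = A ++ (s, Sum.inr x) :: (B ++ (s, Sum.inr x) :: (C ++ (t, Sum.inr y) ::
        (D ++ (t, Sum.inr y) :: E)))) : GoodPair w x y
  | nested (A B C D E : List (Bool × (Bool ⊕ ℕ))) (s t : Bool)
      (hw : w = A ++ (s, Sum.inr x) :: (B ++ (t, Sum.inr y) :: (C ++ (t, Sum.inr y) ::
        (D ++ (s, Sum.inr x) :: E)))) : GoodPair w x y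

/-- Decidability of quadratic equations of Euler genus at least two in Thompson's group `F`,
with a local-global principle: solvability in `F` is equivalent to solvability in the
abelianization. -/
theorem result :
    ∀ a b : FreeGroup Bool, a = FreeGroup.of false → b = FreeGroup.of true →
    ∀ rels : Set (FreeGroup Bool),
      rels = {(a * b⁻¹) * (a⁻¹ * b * a) * (a * b⁻¹)⁻¹ * (a⁻¹ * b * a)⁻¹,
              (a * b⁻¹) * (a⁻¹ * a⁻¹ * b * a * a) * (a * b⁻¹)⁻¹ * (a⁻¹ * a⁻¹ * b * a * a)⁻¹} →
    ∃ f : List (Bool × (Bool ⊕ ℕ)) → Bool, Computable f ∧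
      ∀ w : List (Bool × (Bool ⊕ ℕ)),
        (∀ n : ℕ, w.countP (fun p : Bool × (Bool ⊕ ℕ) => decide (p.2 = Sum.inr n)) = 0 ∨
            w.countP (fun p : Bool × (Bool ⊕ ℕ) => decide (p.2 = Sum.inr n)) = 2) →
        (∃ x y : ℕ, x ≠ y ∧ GoodPair w x y) →
        (f w = true ↔
          ∃ σ : ℕ → PresentedGroup rels,
            (w.map (fun p : Bool × (Bool ⊕ ℕ) =>
              if p.1 then
                Sum.elim (fun c : Bool => (PresentedGroup.of c : PresentedGroup rels)) σ p.2
              else
                (Sum.elim (fun c : Bool => (PresentedGroup.of c : PresentedGroup rels)) σ p.2)⁻¹)).prod = 1) ∧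
        (f w = true ↔
          ∃ τ : ℕ → Abelianization (PresentedGroup rels),
            (w.map (fun p : Bool × (Bool ⊕ ℕ) =>
              if p.1 then
                Sum.elim (fun c : Bool =>
                  Abelianization.of (PresentedGroup.of c : PresentedGroup rels)) τ p.2
              else
                (Sum.elim (fun c : Bool =>
                  Abelianization.of (PresentedGroup.of c : PresentedGroup rels)) τ p.2)⁻¹)).prod = 1) := by
  classical
  rintro a b rfl rfl rels rfl
  obtain ⟨inst, hprim⟩ := Pool.Agent.Lib_helper30.primrec_crit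
  refine ⟨fun w => decide (Pool.Agent.Lib_helper30.Crit w), hprim.to_comp, ?_⟩
  intro w hq hpat
  obtain ⟨x, y, hxy, hp⟩ := hpat
  have hp' : Pool.Agent.Lib_helper30.PairPattern x y w := by
    cases hp with
    | linked A B C D E s1 s2 s3 s4 hs hw =>
      exact Pool.Agent.Lib_helper30.PairPattern.linked A B C D E s1 s2 s3 s4 hs hw
    | side A B C D E s t hw =>
      exact Pool.Agent.Lib_helper30.PairPattern.side A B C D E s t hw
    | nested A B C D E s t hw =>
      exact Pool.Agent.Lib_helper30.PairPattern.nested A B C D E s t hw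
  have hcrit := Pool.Agent.Lib_helper30.crit_iff (w := w) hq
  rw [decide_eq_true_iff, ← hcrit]
  constructor
  · constructor
    · rintro ⟨τ, hτ⟩
      exact Pool.Agent.Lib_helper30.solvable_of_pattern hq hxy hp' hτ
    · rintro ⟨σ, hσ⟩
      let σ' : ℕ → Pool.Agent.Lib_helper30.TF := σ
      have h1 : Pool.Agent.Lib_helper30.ev Pool.Agent.Lib_helper30.cst σ' w = 1 := hσ
      have h2 := Pool.Agent.Lib_helper30.map_ev
        (Abelianization.of : Pool.Agent.Lib_helper30.TF →* _) Pool.Agent.Lib_helper30.cst σ' w
      rw [h1, map_one] at h2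
      exact ⟨Abelianization.of ∘ σ', h2.symm⟩
  · exact Iff.rfl

end Pool.Agent.Results.MP_3bcd2d_al.EulerGenusTwo
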