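import Pool.Agent.Lib_helper30.IvalD

set_option autoImplicit false

namespace Pool.Agent.Results.MP_3bcd2d_al.UnitInterval

/-- The orientation preserving homeomorphism `f` of `[0,1]` (an order automorphism) belongs to
Thompson's group `F`: there is a finite set `B` of dyadic rationals such that on every interval
`[s,t]` which has no point of `B` in its interior `f` is affine and its slope is an integer power
of two. -/
def InF (f : Set.Icc (0 : ℝ) 1 ≃o Set.Icc (0 : ℝ) 1) : Prop :=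
  ∃ B : Finset ℝ, (∀ b ∈ B, ∃ (a : ℤ) (n : ℕ), b = a / 2 ^ n) ∧
    ∀ s t : Set.Icc (0 : ℝ) 1, s < t → (∀ b ∈ B, b ≤ s ∨ (t : ℝ) ≤ b) →
      ∃ m : ℤ, ∀ x : Set.Icc (0 : ℝ) 1, s ≤ x → x ≤ t → (f x : ℝ) = f s + 2 ^ m * (x - s)

/-- Quadratic equations in Thompson's group `F`, the group of the piecewise linear
homeomorphisms of `[0,1]`, are decidable. Here `x₀`, `x₁` are the standard generators; a letter
of an equation is a sign together with a constant (`false` for `x₀`, `true` for `x₁`) or a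
variable. -/
theorem result : ∃ x₀ x₁ : Set.Icc (0 : ℝ) 1 ≃o Set.Icc (0 : ℝ) 1,
    ((∀ t : Set.Icc (0 : ℝ) 1, (t : ℝ) ≤ 1 / 2 → (x₀ t : ℝ) = t / 2) ∧
      (∀ t : Set.Icc (0 : ℝ) 1, 1 / 2 ≤ (t : ℝ) → (t : ℝ) ≤ 3 / 4 → (x₀ t : ℝ) = t - 1 / 4) ∧
      (∀ t : Set.Icc (0 : ℝ) 1, 3 / 4 ≤ (t : ℝ) → (x₀ t : ℝ) = 2 * t - 1)) ∧
    ((∀ t : Set.Icc (0 : ℝ) 1, (t : ℝ) ≤ 1 / 2 → (x₁ t : ℝ) = t) ∧
      (∀ t : Set.Icc (0 : ℝ) 1, 1 / 2 ≤ (t : ℝ) → (t : ℝ) ≤ 3 / 4 →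
        (x₁ t : ℝ) = t / 2 + 1 / 4) ∧
      (∀ t : Set.Icc (0 : ℝ) 1, 3 / 4 ≤ (t : ℝ) → (t : ℝ) ≤ 7 / 8 → (x₁ t : ℝ) = t - 1 / 8) ∧
      (∀ t : Set.Icc (0 : ℝ) 1, 7 / 8 ≤ (t : ℝ) → (x₁ t : ℝ) = 2 * t - 1)) ∧
    (∀ f : Set.Icc (0 : ℝ) 1 ≃o Set.Icc (0 : ℝ) 1,
      InF f ↔ f ∈ Subgroup.closure {x₀, x₁}) ∧
    ∃ dec : List (Bool × (Bool ⊕ ℕ)) → Bool, Computable dec ∧
      ∀ w : List (Bool × (Bool ⊕ ℕ)),
        (∀ n : ℕ, w.countP (fun p : Bool × (Bool ⊕ ℕ) => decide (p.2 = Sum.inr n)) = 0 ∨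
            w.countP (fun p : Bool × (Bool ⊕ ℕ) => decide (p.2 = Sum.inr n)) = 2) →
        (dec w = true ↔
          ∃ σ : ℕ → (Set.Icc (0 : ℝ) 1 ≃o Set.Icc (0 : ℝ) 1), (∀ n, InF (σ n)) ∧
            (w.map (fun p : Bool × (Bool ⊕ ℕ) =>
              if p.1 then Sum.elim (fun c : Bool => if c then x₁ else x₀) σ p.2
              else (Sum.elim (fun c : Bool => if c then x₁ else x₀) σ p.2)⁻¹)).prod = 1) := by
  refine ⟨Pool.Agent.Lib_helper30.Ival.x0, Pool.Agent.Lib_helper30.Ival.x1,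
    ⟨Pool.Agent.Lib_helper30.Ival.x0_lo, Pool.Agent.Lib_helper30.Ival.x0_mid,
      Pool.Agent.Lib_helper30.Ival.x0_hi⟩,
    ⟨Pool.Agent.Lib_helper30.Ival.x1_lo, Pool.Agent.Lib_helper30.Ival.x1_mid,
      Pool.Agent.Lib_helper30.Ival.x1_mid2, Pool.Agent.Lib_helper30.Ival.x1_hi⟩,
    Pool.Agent.Lib_helper30.Ival.PLD_iff_closure, ?_⟩
  obtain ⟨inst, hdec⟩ := Pool.Agent.Lib_helper30.decidable_quadratic
  refine ⟨fun w => decide (Pool.Agent.Lib_helper30.Quad w ∧ Pool.Agent.Lib_helper30.Solv w),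
    hdec, ?_⟩
  intro w hq
  rw [decide_eq_true_iff]
  constructor
  · rintro ⟨-, h⟩
    exact (Pool.Agent.Lib_helper30.Ival.solv_iff w).1 h
  · intro h
    exact ⟨hq, (Pool.Agent.Lib_helper30.Ival.solv_iff w).2 h⟩

end Pool.Agent.Results.MP_3bcd2d_al.UnitInterval
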